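import Pool.Agent.helper616_TP.Defs
import Pool.Agent.helper616_TW.TW5
import Pool.Agent.helper616_TX.TX3

/-!
# Project TP (helper616): the variance for primes
-/

set_option autoImplicit false
set_option maxHeartbeats 4000000

open Finset MeasureTheory Filter Topology
open Pool.Agent.helper616_TS (e LogBdd)

namespace Pool.Agent.helper616_TW

open TW2 (planch)
open TW3 (win_props)
open TX2 (prodmsw)
open TW5

namespace TP2

open scoped ENNReal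

open FourierTransform in
theorem core (hPl : ∀ (g : ℝ → ℂ), Integrable g → MemLp g 2 →
      ∫⁻ ξ : ℝ, ‖𝓕 g ξ‖ₑ ^ 2 = ∫⁻ z : ℝ, ‖g z‖ₑ ^ 2)
    (k : ℕ) (hk : 2 ≤ k) (a b h : ℝ) (hh : 0 < h) (w : Fin (k + 1) → ℕ → ℝ)
    (C0 : ℝ) (hC0 : 0 < C0) (P : ℕ) (hP : 2 ≤ P)
    (hp1 : ∀ ξ : ℝ, ξ ≠ 0 → ∫⁻ l in cube (k + 1) a b, ‖S k P w l ξ‖ₑ ^ 2 ≤
      ENNReal.ofReal (C0 * Real.log P ^ (3 * (k + 1)) * ((P : ℝ) ^ (k + 1) +
      |ξ| ^ (-(2 * ((k + 1 : ℕ) : ℝ) / (k : ℝ))))))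
    (hp2 : ∀ ξ : ℝ, ∫⁻ l in cube (k + 1) a b, ‖S k P w l ξ‖ₑ ^ 2 ≤
      ENNReal.ofReal (C0 * (P : ℝ) ^ (2 * (k + 1))))
    (H : ℝ) (hH1 : 1 ≤ H) (hhH : h ≤ H) (hHP : H ≤ (P : ℝ) ^ k) :
      ∫⁻ l in cube (k + 1) a b, ∫⁻ t : ℝ, ‖∑ x ∈ box (k + 1) P, (W w x : ℂ) * win h H (F k l x - t)‖ₑ ^ 2 ≤
        ENNReal.ofReal (2 * C0 * (16 * Real.pi ^ 2 / Real.log 2 ^ (3 * k + 4) + (4 + (h ^ 2)⁻¹) / Real.log 2 +
      16 * Real.pi ^ 2 * k + 4 / Real.log 2) * (Real.log P) ^ (3 * k + 4) * ((P : ℝ) ^ (k + 1) + H ^ (1 + 2 / (k : ℝ)))) := by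
  obtain ⟨hg, hg2, hgm, hW2, hWH, hWh⟩ := win_props h H hh hhH
  have hk0 : (0 : ℝ) < k := by exact_mod_cast (by omega : 0 < k)
  have hP2 : (2 : ℝ) ≤ P := by exact_mod_cast hP
  have hP0 : (0 : ℝ) < P := by linarith
  have hH0 : 0 < H := by linarith
  have hL0 : 0 < Real.log P := Real.log_pos (by linarith)
  have hpi : 0 < Real.pi := Real.pi_pos
  -- Plancherel
  have h1 : ∀ l : Fin (k + 1) → ℝ,
      ∫⁻ t : ℝ, ‖∑ x ∈ box (k + 1) P, (W w x : ℂ) * win h H (F k l x - t)‖ₑ ^ 2 =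
      ∫⁻ ξ : ℝ, ‖𝓕 (win h H) ξ‖ₑ ^ 2 * ‖S k P w l ξ‖ₑ ^ 2 := by
    intro l
    exact planch hPl (box (k + 1) P) (W w) (F k l) (win h H) hg hg2
  have hcont := TX3.cont_S k P w
  have hmeas : Measurable (Function.uncurry fun (l : Fin (k + 1) → ℝ) (ξ : ℝ) =>
      ‖𝓕 (win h H) ξ‖ₑ ^ 2 * ‖S k P w l ξ‖ₑ ^ 2) := by
    exact (((hgm.comp measurable_snd).enorm).pow_const 2).mul
      ((hcont.measurable.enorm).pow_const 2)
  have h2 : ∫⁻ l in cube (k + 1) a b, ∫⁻ t : ℝ,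
      ‖∑ x ∈ box (k + 1) P, (W w x : ℂ) * win h H (F k l x - t)‖ₑ ^ 2 =
      ∫⁻ ξ : ℝ, ‖𝓕 (win h H) ξ‖ₑ ^ 2 *
        ∫⁻ l in cube (k + 1) a b, ‖S k P w l ξ‖ₑ ^ 2 := by
    simp only [h1]
    rw [lintegral_lintegral_swap hmeas.aemeasurable]
    refine lintegral_congr fun ξ => ?_
    rw [lintegral_const_mul']
    exact ENNReal.pow_ne_top enorm_ne_top
  rw [h2]
  refine (tw5_sym _ (fun u => (Set.Ioc 0 ((P : ℝ) ^ k)⁻¹).indicator (fun _ => ENNReal.ofReal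
        (16 * Real.pi ^ 2 * H ^ 2 * (((P : ℝ) ^ k)⁻¹) ^ 2 * (C0 * (P : ℝ) ^ (2 * (k + 1))))) u +
      ((Set.Ioc 0 1).indicator (fun _ => ENNReal.ofReal
        (4 * (C0 * Real.log P ^ (3 * (k + 1)) * (P : ℝ) ^ (k + 1)))) u +
      ((Set.Ioi 1).indicator (fun u => ENNReal.ofReal
        (((C0 * Real.log P ^ (3 * (k + 1)) * (P : ℝ) ^ (k + 1)) * (h ^ 2)⁻¹) *
          u ^ (-2 : ℝ))) u +
      ((Set.Ioc ((P : ℝ) ^ k)⁻¹ H⁻¹).indicator (fun u => ENNReal.ofReal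
        ((C0 * Real.log P ^ (3 * (k + 1)) * (16 * Real.pi ^ 2 * H ^ (1 + 2 / (k : ℝ)))) * u⁻¹)) u +
      (Set.Ioi H⁻¹).indicator (fun u => ENNReal.ofReal
        ((4 * (C0 * Real.log P ^ (3 * (k + 1)))) *
          u ^ (-(2 * ((k + 1 : ℕ) : ℝ) / (k : ℝ))))) u)))) ?_).trans ?_
  · intro ξ hξ
    have hu : 0 < |ξ| := abs_pos.2 hξ
    have e1 : ‖𝓕 (win h H) ξ‖ₑ ^ 2 = ENNReal.ofReal (‖𝓕 (win h H) ξ‖ ^ 2) := by
      rw [← ofReal_norm, ENNReal.ofReal_pow (norm_nonneg _)]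
    rw [e1]
    refine tw5_pt k hk h C0 hh hC0 P hP H hH1 _ |ξ| _ (norm_nonneg _) hu (hW2 ξ) (hWH ξ)
      (hWh ξ hξ) ?_ (hp2 ξ)
    exact hp1 ξ hξ
  · have hpk0 : (0 : ℝ) < ((P : ℝ) ^ k)⁻¹ := by positivity
    have hpH : ((P : ℝ) ^ k)⁻¹ ≤ H⁻¹ := inv_anti₀ hH0 hHP
    have hmul : ∀ A p : ℝ, 0 ≤ A → ENNReal.ofReal A * ENNReal.ofReal p = ENNReal.ofReal (A * p) :=
      fun A p hA => (ENNReal.ofReal_mul hA).symm
    have hs1 : (1 : ℝ) < 2 * ((k + 1 : ℕ) : ℝ) / (k : ℝ) := by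
      rw [lt_div_iff₀ hk0]
      push_cast
      linarith
    refine (mul_le_mul' le_rfl (setLIntegral_le_lintegral (Set.Ioi (0 : ℝ)) _)).trans ?_
    calc _ = 2 * (ENNReal.ofReal ((16 * Real.pi ^ 2 * H ^ 2 * (((P : ℝ) ^ k)⁻¹) ^ 2 *
            (C0 * (P : ℝ) ^ (2 * (k + 1)))) * ((P : ℝ) ^ k)⁻¹) +
          (ENNReal.ofReal (4 * (C0 * Real.log P ^ (3 * (k + 1)) * (P : ℝ) ^ (k + 1)) * 1) +
          (ENNReal.ofReal (((C0 * Real.log P ^ (3 * (k + 1)) * (P : ℝ) ^ (k + 1)) * (h ^ 2)⁻¹) *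
            (-1 ^ ((-2 : ℝ) + 1) / ((-2 : ℝ) + 1))) +
          (ENNReal.ofReal ((C0 * Real.log P ^ (3 * (k + 1)) *
            (16 * Real.pi ^ 2 * H ^ (1 + 2 / (k : ℝ)))) * Real.log (H⁻¹ / ((P : ℝ) ^ k)⁻¹)) +
          ENNReal.ofReal ((4 * (C0 * Real.log P ^ (3 * (k + 1)))) *
            (-H⁻¹ ^ (-(2 * ((k + 1 : ℕ) : ℝ) / (k : ℝ)) + 1) /
              (-(2 * ((k + 1 : ℕ) : ℝ) / (k : ℝ)) + 1))))))) := by
          congr 1
          rw [lintegral_add_left (tw5_meas _ (by fun_prop) _ measurableSet_Ioc),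
            lintegral_add_left (tw5_meas _ (by fun_prop) _ measurableSet_Ioc),
            lintegral_add_left (tw5_meas _ (by fun_prop) _ measurableSet_Ioi),
            lintegral_add_left (tw5_meas _ (by fun_prop) _ measurableSet_Ioc),
            tw5_a, tw5_a, tw5_c _ 1 (-2) (by positivity) one_pos (by norm_num),
            tw5_b _ _ _ (by positivity) hpk0 hpH,
            tw5_c _ _ _ (by positivity) (by positivity) (by linarith),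
            hmul _ _ (by positivity), hmul _ _ (by positivity)]
      _ ≤ _ := ?_
    have hlog0 : 0 ≤ Real.log (H⁻¹ / ((P : ℝ) ^ k)⁻¹) := by
      apply Real.log_nonneg
      rw [le_div_iff₀ hpk0, one_mul]
      exact hpH
    have e3 : (-1 ^ ((-2 : ℝ) + 1) / ((-2 : ℝ) + 1)) = 1 := by
      rw [Real.one_rpow]; norm_num
    have e5 : (-H⁻¹ ^ (-(2 * ((k + 1 : ℕ) : ℝ) / (k : ℝ)) + 1) /
              (-(2 * ((k + 1 : ℕ) : ℝ) / (k : ℝ)) + 1)) ≤ H ^ (1 + 2 / (k : ℝ)) := by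
      have h5 : -(2 * ((k + 1 : ℕ) : ℝ) / (k : ℝ)) + 1 = -(1 + 2 / (k : ℝ)) := by
        push_cast
        field_simp
        ring
      rw [h5, Real.inv_rpow hH0.le, Real.rpow_neg hH0.le, inv_inv, neg_div_neg_eq]
      apply div_le_self (by positivity)
      have : 0 < 2 / (k : ℝ) := by positivity
      linarith
    have e50 : 0 ≤ (-H⁻¹ ^ (-(2 * ((k + 1 : ℕ) : ℝ) / (k : ℝ)) + 1) /
              (-(2 * ((k + 1 : ℕ) : ℝ) / (k : ℝ)) + 1)) := by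
      apply div_nonneg_of_nonpos
      · rw [neg_nonpos]; positivity
      · linarith
    rw [e3, mul_one, mul_one, ← ENNReal.ofReal_add (by positivity) (by positivity),
      ← ENNReal.ofReal_add (by positivity) (by positivity),
      ← ENNReal.ofReal_add (by positivity) (by positivity),
      ← ENNReal.ofReal_add (by positivity) (by positivity),
      show (2 : ℝ≥0∞) = ENNReal.ofReal 2 by norm_num, ← ENNReal.ofReal_mul (by norm_num)]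
    apply ENNReal.ofReal_le_ofReal
    refine le_trans ?_ (tw5_real k hk h C0 hh hC0 P hP H hH1 hHP)
    have e6 := mul_le_mul_of_nonneg_left e5
      (by positivity : (0 : ℝ) ≤ 4 * (C0 * Real.log P ^ (3 * (k + 1))))
    linarith

theorem numer (k : ℕ) (hk : 2 ≤ k) (C : ℝ) (K P : ℕ) (hC : 0 < C) (hP : 2 ≤ P) (u : ℝ) (hu : 0 < u)
    (h1 : 1 ≤ (P : ℝ) ^ k * u) :
    C * (Real.log P) ^ K * ((P : ℝ) ^ (k + 1) + (P : ℝ) ^ (2 * (k + 1)) *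
      ((P : ℝ) ^ k * u) ^ (-(((k + 1 : ℕ) : ℝ) * rho k))) ≤
    (C * (1 + 1 / Real.log 2 ^ (3 * (k + 1))) * (Real.log P) ^ K) * Real.log P ^ (3 * (k + 1)) *
      ((P : ℝ) ^ (k + 1) + u ^ (-(2 * ((k + 1 : ℕ) : ℝ) / (k : ℝ)))) := by
  have hk0 : (0 : ℝ) < k := by exact_mod_cast (by omega : 0 < k)
  have hk2 : (2 : ℝ) ≤ k := by exact_mod_cast hk
  have hP2 : (2 : ℝ) ≤ P := by exact_mod_cast hP
  have hP0 : (0 : ℝ) < P := by linarith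
  have hl2 : 0 < Real.log 2 := Real.log_pos one_lt_two
  have hL : Real.log 2 ≤ Real.log P := Real.log_le_log two_pos hP2
  have hL0 : 0 < Real.log P := hl2.trans_le hL
  have hrho : rho k = 2 / (k : ℝ) := by
    unfold rho
    exact min_eq_right (by rw [div_le_one hk0]; exact hk2)
  have e1 : (P : ℝ) ^ (2 * (k + 1)) * ((P : ℝ) ^ k * u) ^ (-(((k + 1 : ℕ) : ℝ) * rho k)) =
      u ^ (-(2 * ((k + 1 : ℕ) : ℝ) / (k : ℝ))) := by
    rw [hrho, Real.mul_rpow (by positivity) hu.le, ← mul_assoc]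
    have e2 : ((P : ℝ) ^ k) ^ (-(((k + 1 : ℕ) : ℝ) * (2 / (k : ℝ)))) = ((P : ℝ) ^ (2 * (k + 1)))⁻¹ := by
      rw [← Real.rpow_natCast (P : ℝ) k, ← Real.rpow_mul hP0.le, ← Real.rpow_natCast (P : ℝ) (2 * (k + 1)),
        ← Real.rpow_neg hP0.le]
      congr 1
      push_cast
      field_simp
    rw [e2, mul_inv_cancel₀ (by positivity), one_mul]
    congr 1
    ring
  rw [e1]
  have h3 : 1 ≤ (1 + 1 / Real.log 2 ^ (3 * (k + 1))) * Real.log P ^ (3 * (k + 1)) := by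
    have h4 : Real.log 2 ^ (3 * (k + 1)) ≤ Real.log P ^ (3 * (k + 1)) := pow_le_pow_left₀ hl2.le hL _
    have h5 : 0 < Real.log 2 ^ (3 * (k + 1)) := by positivity
    have h6 : 1 ≤ 1 / Real.log 2 ^ (3 * (k + 1)) * Real.log P ^ (3 * (k + 1)) := by
      rw [one_div, inv_mul_eq_div, one_le_div h5]; exact h4
    have h7 : 0 ≤ Real.log P ^ (3 * (k + 1)) := by positivity
    nlinarith
  have h8 : 0 ≤ C * (Real.log P) ^ K * ((P : ℝ) ^ (k + 1) + u ^ (-(2 * ((k + 1 : ℕ) : ℝ) / (k : ℝ)))) := by positivity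
  calc C * (Real.log P) ^ K * ((P : ℝ) ^ (k + 1) + u ^ (-(2 * ((k + 1 : ℕ) : ℝ) / (k : ℝ))))
      ≤ C * (Real.log P) ^ K * ((P : ℝ) ^ (k + 1) + u ^ (-(2 * ((k + 1 : ℕ) : ℝ) / (k : ℝ)))) *
        ((1 + 1 / Real.log 2 ^ (3 * (k + 1))) * Real.log P ^ (3 * (k + 1))) := le_mul_of_one_le_right h8 h3
    _ = _ := by ring

theorem logBdd_pr : LogBdd pr := by
  refine ⟨1, 0, fun n => ?_⟩
  unfold pr
  split <;> simp

open FourierTransform in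
theorem varianceP (hPl : ∀ (g : ℝ → ℂ), Integrable g → MemLp g 2 →
      ∫⁻ ξ : ℝ, ‖𝓕 g ξ‖ₑ ^ 2 = ∫⁻ z : ℝ, ‖g z‖ₑ ^ 2)
    (k : ℕ) (hk : 2 ≤ k) (a b h : ℝ) (ha : 0 < a) (hab : a < b) (hh : 0 < h) :
    ∃ (C : ℝ) (K : ℕ), 0 < C ∧ ∀ P : ℕ, 2 ≤ P → ∀ H : ℝ, 1 ≤ H → h ≤ H → H ≤ (P : ℝ) ^ k →
      ∫⁻ l in cube (k + 1) a b, ∫⁻ t : ℝ, ‖∑ x ∈ box (k + 1) P, (W (fun _ => pr) x : ℂ) * win h H (F k l x - t)‖ₑ ^ 2 ≤
        ENNReal.ofReal (C * (Real.log P) ^ K * ((P : ℝ) ^ (k + 1) + H ^ (1 + 2 / (k : ℝ)))) := by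
  obtain ⟨C, K, hC, hprod⟩ := prodmsw k (by omega) a b ha hab (k + 1) (fun _ => pr) (fun _ => logBdd_pr)
  have hl2 : 0 < Real.log 2 := Real.log_pos one_lt_two
  have hpi : 0 < Real.pi := Real.pi_pos
  refine ⟨2 * (C * (1 + 1 / Real.log 2 ^ (3 * (k + 1)))) * (16 * Real.pi ^ 2 / Real.log 2 ^ (3 * k + 4) +
    (4 + (h ^ 2)⁻¹) / Real.log 2 + 16 * Real.pi ^ 2 * k + 4 / Real.log 2), K + (3 * k + 4), by positivity,
    fun P hP H hH1 hhH hHP => ?_⟩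
  obtain ⟨hp1, hp2⟩ := hprod P hP
  have hP2 : (2 : ℝ) ≤ P := by exact_mod_cast hP
  have hP0 : (0 : ℝ) < P := by linarith
  have hk0 : (0 : ℝ) < k := by exact_mod_cast (by omega : 0 < k)
  have hL : Real.log 2 ≤ Real.log P := Real.log_le_log two_pos hP2
  have hL0 : 0 < Real.log P := hl2.trans_le hL
  have hc : 1 ≤ 1 + 1 / Real.log 2 ^ (3 * (k + 1)) := by
    have : 0 < 1 / Real.log 2 ^ (3 * (k + 1)) := by positivity
    linarith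
  have hq2 : ∀ ξ : ℝ, ∫⁻ l in cube (k + 1) a b, ‖S k P (fun _ => pr) l ξ‖ₑ ^ 2 ≤
      ENNReal.ofReal ((C * (1 + 1 / Real.log 2 ^ (3 * (k + 1))) * (Real.log P) ^ K) * (P : ℝ) ^ (2 * (k + 1))) := by
    intro ξ
    refine (hp2 ξ).trans (ENNReal.ofReal_le_ofReal ?_)
    apply mul_le_mul_of_nonneg_right _ (by positivity)
    apply mul_le_mul_of_nonneg_right _ (by positivity)
    exact le_mul_of_one_le_right hC.le hc
  have hq1 : ∀ ξ : ℝ, ξ ≠ 0 → ∫⁻ l in cube (k + 1) a b, ‖S k P (fun _ => pr) l ξ‖ₑ ^ 2 ≤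
      ENNReal.ofReal ((C * (1 + 1 / Real.log 2 ^ (3 * (k + 1))) * (Real.log P) ^ K) * Real.log P ^ (3 * (k + 1)) *
      ((P : ℝ) ^ (k + 1) + |ξ| ^ (-(2 * ((k + 1 : ℕ) : ℝ) / (k : ℝ))))) := by
    intro ξ hξ
    have hu : 0 < |ξ| := abs_pos.2 hξ
    rcases le_or_gt 1 ((P : ℝ) ^ k * |ξ|) with h1 | h1
    · exact (hp1 ξ h1).trans (ENNReal.ofReal_le_ofReal (numer k hk C K P hC hP |ξ| hu h1))
    · refine (hp2 ξ).trans (ENNReal.ofReal_le_ofReal ?_)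
      have h2 := numer k hk C K P hC hP (((P : ℝ) ^ k)⁻¹) (by positivity) (by rw [mul_inv_cancel₀ (by positivity)])
      rw [mul_inv_cancel₀ (by positivity), Real.one_rpow, mul_one] at h2
      have h3 : (((P : ℝ) ^ k)⁻¹) ^ (-(2 * ((k + 1 : ℕ) : ℝ) / (k : ℝ))) ≤ |ξ| ^ (-(2 * ((k + 1 : ℕ) : ℝ) / (k : ℝ))) := by
        apply Real.rpow_le_rpow_of_nonpos hu
        · rw [← one_div, le_div_iff₀ (by positivity)]
          linarith
        · rw [neg_nonpos]; positivity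
      calc C * Real.log P ^ K * (P : ℝ) ^ (2 * (k + 1))
          ≤ C * (Real.log P) ^ K * ((P : ℝ) ^ (k + 1) + (P : ℝ) ^ (2 * (k + 1))) := by
            apply mul_le_mul_of_nonneg_left _ (by positivity)
            have : (0 : ℝ) ≤ (P : ℝ) ^ (k + 1) := by positivity
            linarith
        _ ≤ _ := h2
        _ ≤ _ := by
            apply mul_le_mul_of_nonneg_left _ (by positivity)
            linarith
  refine (core hPl k hk a b h hh (fun _ => pr) _ (by positivity) P hP hq1 hq2 H hH1 hhH hHP).trans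
    (ENNReal.ofReal_le_ofReal (le_of_eq ?_))
  rw [pow_add]
  ring

end TP2

end Pool.Agent.helper616_TW
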