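import Pool.Agent.helper616_TP.Defs
import Pool.Agent.helper616_TP.TP2
import Pool.Agent.helper616_TP.TP1

/-!
# Project TP (helper616): the exceptional set for k+1 primes
-/

set_option autoImplicit false
set_option maxHeartbeats 4000000

open Finset MeasureTheory Filter Topology
open Pool.Agent.helper616_TS (e LogBdd)

namespace Pool.Agent.helper616_TW

open TP2 (varianceP)
open TP1 (lowerP)

namespace TP3


lemma tp3_cube_meas (s : ℕ) (a b : ℝ) : MeasurableSet (cube s a b) := by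
  have : cube s a b = Set.pi Set.univ (fun _ => Set.Icc a b) := by
    ext l; simp [cube, Set.mem_pi, -Set.mem_Icc, -Set.pi_univ_Icc]
  rw [this]
  exact MeasurableSet.univ_pi fun _ => measurableSet_Icc

lemma tp3_bad_meas {s : ℕ} (k P : ℕ) (a τ h : ℝ) (l : Fin s → ℝ) :
    MeasurableSet (badP k P a τ h l) := by
  classical
  have : badP k P a τ h l = Set.Icc (τ * (P : ℝ) ^ k) (a * (P : ℝ) ^ k / 2) ∩
      ⋂ x ∈ (box s P).filter (fun x => ∀ i, (x i).Prime), (Set.Ico (F k l x - h) (F k l x))ᶜ := by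
    ext t
    simp only [badP, Set.mem_ofPred_eq, Set.mem_inter_iff, Set.mem_Icc, Set.mem_iInter,
      Set.mem_compl_iff, Set.mem_Ico, and_assoc, Finset.mem_filter, and_imp]
    refine and_congr_right fun _ => and_congr_right fun _ => ?_
    refine forall₂_congr fun x _ => forall_congr' fun _ => not_congr ?_
    constructor
    · rintro ⟨h1, h2⟩; exact ⟨by linarith, h1⟩
    · rintro ⟨h1, h2⟩; exact ⟨h2, by linarith⟩
  rw [this]
  refine measurableSet_Icc.inter ?_
  exact Finset.measurableSet_biInter _ fun x _ => measurableSet_Ico.compl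

/-- the number of the prime points of the box with `t < F(x) ≤ t + h` -/
noncomputable def tp3R {s : ℕ} (k P : ℕ) (l : Fin s → ℝ) (t h : ℝ) : ℕ :=
  ((box s P).filter fun x => (∀ i, (x i).Prime) ∧ t < F k l x ∧ F k l x ≤ t + h).card

lemma tp3_W {s : ℕ} (x : Fin s → ℕ) : W (fun _ => pr) x = if ∀ i, (x i).Prime then 1 else 0 := by
  unfold W pr
  by_cases hx : ∀ i, (x i).Prime
  · rw [if_pos hx]
    exact Finset.prod_eq_one fun i _ => if_pos (hx i)
  · rw [if_neg hx]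
    push Not at hx
    obtain ⟨i, hi⟩ := hx
    exact Finset.prod_eq_zero (Finset.mem_univ i) (if_neg hi)

lemma tp3_sum_win {s : ℕ} (k P : ℕ) (l : Fin s → ℝ) (t h H : ℝ) :
    ∑ x ∈ box s P, (W (fun _ => pr) x : ℂ) * win h H (F k l x - t) =
      (((tp3R k P l t h : ℝ) / h - (tp3R k P l t H : ℝ) / H : ℝ) : ℂ) := by
  have key : ∀ g : ℝ, ∑ x ∈ box s P, W (fun _ => pr) x *
      (Set.Ioc 0 g).indicator (fun _ => 1 / g) (F k l x - t) = (tp3R k P l t g : ℝ) / g := by
    intro g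
    have : ∀ x ∈ box s P, W (fun _ => pr) x *
        (Set.Ioc 0 g).indicator (fun _ => 1 / g) (F k l x - t) =
        if ((∀ i, (x i).Prime) ∧ t < F k l x ∧ F k l x ≤ t + g) then 1 / g else 0 := by
      intro x _
      rw [tp3_W, Set.indicator_apply]
      by_cases hx : ∀ i, (x i).Prime
      · rw [if_pos hx, one_mul]
        congr 1
        simp only [Set.mem_Ioc, eq_iff_iff]
        constructor
        · rintro ⟨h1, h2⟩; exact ⟨hx, by linarith, by linarith⟩
        · rintro ⟨_, h1, h2⟩; exact ⟨by linarith, by linarith⟩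
      · rw [if_neg hx, zero_mul, if_neg fun h => hx h.1]
    rw [Finset.sum_congr rfl this, Finset.sum_ite, Finset.sum_const_zero, add_zero,
      Finset.sum_const, nsmul_eq_mul, tp3R, mul_one_div]
  rw [← key h, ← key H, ← Finset.sum_sub_distrib, Complex.ofReal_sum]
  refine Finset.sum_congr rfl fun x _ => ?_
  unfold win
  push_cast
  ring

open FourierTransform in
theorem bad0P (hPl : ∀ (g : ℝ → ℂ), Integrable g → MemLp g 2 →
      ∫⁻ ξ : ℝ, ‖𝓕 g ξ‖ₑ ^ 2 = ∫⁻ z : ℝ, ‖g z‖ₑ ^ 2) (hH : Hoheisel) :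
    ∃ δ : ℝ, 0 < δ ∧ δ < 1 ∧ ∀ (k : ℕ) (_ : 2 ≤ k) (a b : ℝ) (_ : 0 < a) (_ : a < b) (τ h : ℝ) (_ : 0 < τ) (_ : τ < a / 2)
      (_ : 0 < h), ∃ (C : ℝ) (K : ℕ), ∀ᶠ P : ℕ in atTop, ∫⁻ l in cube (k + 1) a b, volume (badP k P a τ h l) ≤
      ENNReal.ofReal (C * (Real.log P) ^ K * (P : ℝ) ^ ((k : ℝ) - δ)) := by
  obtain ⟨δ, hδ0, hδ1, hL⟩ := lowerP hH
  refine ⟨δ, hδ0, hδ1, fun k hk a b ha hab τ h hτ hτa hh => ?_⟩
  obtain ⟨C, K, hC, hvar⟩ := varianceP hPl k hk a b h ha hab hh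
  obtain ⟨c, hc, hlow⟩ := hL k hk a b τ ha hab hτ hτa
  have hk0 : (0 : ℝ) < k := by exact_mod_cast (by omega : 0 < k)
  have hk2 : (2 : ℝ) ≤ k := by exact_mod_cast hk
  have hkδ : 0 < (k : ℝ) - δ := by linarith
  refine ⟨C * 2 / c ^ 2, K + (2 * k + 2), ?_⟩
  have hH1 : ∀ᶠ P : ℕ in atTop, max 1 h ≤ (P : ℝ) ^ ((k : ℝ) - δ) :=
    ((tendsto_rpow_atTop hkδ).comp tendsto_natCast_atTop_atTop).eventually_ge_atTop _
  filter_upwards [hlow, eventually_ge_atTop 2, hH1] with P hP hP2 hP3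
  have hPr : (2 : ℝ) ≤ P := by exact_mod_cast hP2
  have hP0 : (0 : ℝ) < P := by linarith
  have hP1 : (1 : ℝ) ≤ P := by linarith
  have hlog : 0 < Real.log P := Real.log_pos (by linarith)
  set L : ℝ := Real.log P with hLdef
  set H : ℝ := (P : ℝ) ^ ((k : ℝ) - δ) with hHdef
  have hH0 : 0 < H := Real.rpow_pos_of_pos hP0 _
  have hHP : H ≤ (P : ℝ) ^ k := by
    rw [← Real.rpow_natCast, hHdef]
    exact Real.rpow_le_rpow_of_exponent_le hP1 (by linarith)
  have hv := hvar P hP2 H ((le_max_left _ _).trans hP3) ((le_max_right _ _).trans hP3) hHP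
  set q : ℝ := c * P / L ^ (k + 1) with hq
  have hq0 : 0 < q := by positivity
  -- the lower bound of the inner integral
  have hin : ∀ l ∈ cube (k + 1) a b, ENNReal.ofReal (q ^ 2) * volume (badP k P a τ h l) ≤
      ∫⁻ t : ℝ, ‖∑ x ∈ box (k + 1) P, (W (fun _ => pr) x : ℂ) * win h H (F k l x - t)‖ₑ ^ 2 := by
    intro l hl
    calc ENNReal.ofReal (q ^ 2) * volume (badP k P a τ h l)
        = ∫⁻ _ in badP k P a τ h l, ENNReal.ofReal (q ^ 2) := by
          rw [setLIntegral_const]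
      _ ≤ ∫⁻ t in badP k P a τ h l,
            ‖∑ x ∈ box (k + 1) P, (W (fun _ => pr) x : ℂ) * win h H (F k l x - t)‖ₑ ^ 2 := by
          refine setLIntegral_mono' (tp3_bad_meas k P a τ h l) fun t ht => ?_
          have hR0 : tp3R k P l t h = 0 := by
            rw [tp3R, Finset.card_eq_zero, Finset.filter_eq_empty_iff]
            intro x hx hx2
            exact ht.2.2 x hx hx2.1 hx2.2
          have hR1 : c * (P : ℝ) ^ ((k : ℝ) + 1 - δ) / L ^ (k + 1) ≤ (tp3R k P l t H : ℝ) :=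
            hP l hl t ht.1 ht.2.1
          rw [tp3_sum_win, hR0]
          rw [← ofReal_norm, ← ENNReal.ofReal_pow (norm_nonneg _)]
          refine ENNReal.ofReal_le_ofReal ?_
          refine pow_le_pow_left₀ hq0.le ?_ 2
          rw [Complex.norm_real, Nat.cast_zero, zero_div, zero_sub, norm_neg, Real.norm_of_nonneg
            (by positivity)]
          rw [le_div_iff₀ hH0]
          refine le_trans (le_of_eq ?_) hR1
          have e1 : (P : ℝ) ^ ((k : ℝ) + 1 - δ) = P * H := by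
            rw [hHdef, show (k : ℝ) + 1 - δ = 1 + ((k : ℝ) - δ) by ring, Real.rpow_add hP0,
              Real.rpow_one]
          rw [e1, hq]
          ring
      _ ≤ _ := setLIntegral_le_lintegral _ _
  have hout : ENNReal.ofReal (q ^ 2) * ∫⁻ l in cube (k + 1) a b, volume (badP k P a τ h l) ≤
      ENNReal.ofReal (C * L ^ K * ((P : ℝ) ^ (k + 1) + H ^ (1 + 2 / (k : ℝ)))) := by
    rw [← lintegral_const_mul' _ _ ENNReal.ofReal_ne_top]
    exact le_trans (setLIntegral_mono' (tp3_cube_meas _ _ _) hin) hv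
  -- the powers
  have hp1 : H ^ (1 + 2 / (k : ℝ)) ≤ (P : ℝ) ^ 2 * H := by
    have e1 : H ^ (1 + 2 / (k : ℝ)) = (P : ℝ) ^ (((k : ℝ) - δ) * (1 + 2 / (k : ℝ))) := by
      rw [hHdef, ← Real.rpow_mul hP0.le]
    have e2 : (P : ℝ) ^ 2 * H = (P : ℝ) ^ ((k : ℝ) + 2 - δ) := by
      rw [hHdef, ← Real.rpow_natCast, ← Real.rpow_add hP0]
      congr 1
      push_cast
      ring
    rw [e1, e2]
    refine Real.rpow_le_rpow_of_exponent_le hP1 ?_
    have h5 : 0 ≤ 2 * δ / (k : ℝ) := by positivity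
    have h6 : ((k : ℝ) - δ) * (1 + 2 / (k : ℝ)) = (k : ℝ) + 2 - δ - 2 * δ / k := by
      field_simp
      ring
    rw [h6]
    linarith
  have hp2 : (P : ℝ) ^ (k + 1) ≤ (P : ℝ) ^ 2 * H := by
    have e2 : (P : ℝ) ^ 2 * H = (P : ℝ) ^ ((k : ℝ) + 2 - δ) := by
      rw [hHdef, ← Real.rpow_natCast, ← Real.rpow_add hP0]
      congr 1
      push_cast
      ring
    rw [e2, ← Real.rpow_natCast]
    refine Real.rpow_le_rpow_of_exponent_le hP1 ?_
    push_cast
    linarith
  have hfin : C * L ^ K * ((P : ℝ) ^ (k + 1) + H ^ (1 + 2 / (k : ℝ))) ≤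
      q ^ 2 * (C * 2 / c ^ 2 * L ^ (K + (2 * k + 2)) * H) := by
    have e2 : q ^ 2 * (C * 2 / c ^ 2 * L ^ (K + (2 * k + 2)) * H) =
        C * L ^ K * ((P : ℝ) ^ 2 * H + (P : ℝ) ^ 2 * H) := by
      have e3 : L ^ (K + (2 * k + 2)) = L ^ K * (L ^ (k + 1)) ^ 2 := by
        rw [pow_add, ← pow_mul]
        congr 2
        ring
      rw [e3, hq]
      field_simp
      ring
    rw [e2]
    refine mul_le_mul_of_nonneg_left (add_le_add hp2 hp1) (by positivity)
  have h6 := hout.trans (ENNReal.ofReal_le_ofReal hfin)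
  rw [ENNReal.ofReal_mul (by positivity)] at h6
  have h7 : ENNReal.ofReal (q ^ 2) ≠ 0 := by
    rw [Ne, ENNReal.ofReal_eq_zero, not_le]; positivity
  exact (ENNReal.mul_le_mul_iff_right h7 ENNReal.ofReal_ne_top).1 h6

end TP3

end Pool.Agent.helper616_TW
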