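import Pool.Agent.helper616_TP.Defs
import Pool.Agent.helper616_TW.TW8
import Pool.Agent.helper616_TP.TP4

/-!
# Project TP (helper616): one more prime variable squares the density
-/

set_option autoImplicit false
set_option maxHeartbeats 4000000

open Finset MeasureTheory Filter Topology
open Pool.Agent.helper616_TS (e LogBdd)

namespace Pool.Agent.helper616_TW

open TW8 (doubling)
open TP4 (meas_badP)

namespace TP5


lemma cube_eq (s : ℕ) (a b : ℝ) : cube s a b = Set.Icc (fun _ => a) (fun _ => b) := by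
  ext l
  simp only [cube, Set.mem_ofPred_eq, Set.mem_Icc, Pi.le_def]
  exact ⟨fun h => ⟨fun i => (h i).1, fun i => (h i).2⟩, fun h i => ⟨h.1 i, h.2 i⟩⟩

lemma cube_meas (s : ℕ) (a b : ℝ) : MeasurableSet (cube s a b) := by
  rw [cube_eq]
  exact measurableSet_Icc

lemma cube_vol (s : ℕ) (a b : ℝ) (hab : a ≤ b) :
    volume (cube s a b) = ENNReal.ofReal ((b - a) ^ s) := by
  rw [cube_eq, Real.volume_Icc_pi]
  simp only [Finset.prod_const, Finset.card_univ, Fintype.card_fin]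
  rw [ENNReal.ofReal_pow (by linarith)]

lemma cons_meas (s : ℕ) :
    Measurable (fun p : ℝ × (Fin s → ℝ) => (Fin.cons p.1 p.2 : Fin (s + 1) → ℝ)) := by
  refine measurable_pi_iff.2 (fun i => ?_)
  refine Fin.cases ?_ (fun j => ?_) i
  · simpa using measurable_fst
  · simpa [Function.comp_def] using (measurable_pi_apply j).comp (measurable_snd (α := ℝ) (β := Fin s → ℝ))

lemma F_cons {s : ℕ} (k : ℕ) (μ : ℝ) (l : Fin s → ℝ) (z : ℕ) (x : Fin s → ℕ) :
    F k (Fin.cons μ l : Fin (s + 1) → ℝ) (Fin.cons z x : Fin (s + 1) → ℕ) =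
      μ * (z : ℝ) ^ k + F k l x := by
  unfold F
  rw [Fin.sum_univ_succ]
  simp

lemma cons_box {s P z : ℕ} (hz : 1 ≤ z) (hz2 : z ≤ P) {x : Fin s → ℕ} (hx : x ∈ box s P) :
    (Fin.cons z x : Fin (s + 1) → ℕ) ∈ box (s + 1) P := by
  unfold box at *
  rw [Fintype.mem_piFinset] at *
  intro i
  refine Fin.cases ?_ (fun j => ?_) i
  · simp only [Fin.cons_zero, Finset.mem_Icc]
    exact ⟨hz, hz2⟩
  · simpa using hx j

/-- a bad point for the long form gives a bad point for the short form -/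
lemma badP_cons {s : ℕ} (k P : ℕ) (a b τ h μ : ℝ) (l : Fin s → ℝ) (hμ0 : 0 ≤ μ) (hμ : μ ≤ b)
    (z : ℕ) (hz : z.Prime) (hz2 : z ≤ P) (hzb : b * (z : ℝ) ^ k ≤ τ / 2 * (P : ℝ) ^ k) {t : ℝ}
    (ht : t ∈ badP k P a τ h (Fin.cons μ l : Fin (s + 1) → ℝ)) :
    t - μ * (z : ℝ) ^ k ∈ badP k P a (τ / 2) h l := by
  obtain ⟨h1, h2, h3⟩ := ht
  have hzk : (0 : ℝ) ≤ (z : ℝ) ^ k := by positivity
  have h4 : μ * (z : ℝ) ^ k ≤ b * (z : ℝ) ^ k := mul_le_mul_of_nonneg_right hμ hzk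
  have h5 : 0 ≤ μ * (z : ℝ) ^ k := mul_nonneg hμ0 hzk
  refine ⟨?_, ?_, ?_⟩
  · have : τ * (P : ℝ) ^ k = τ / 2 * (P : ℝ) ^ k + τ / 2 * (P : ℝ) ^ k := by ring
    linarith
  · linarith
  · intro x hx hxp hcon
    refine h3 _ (cons_box hz.one_le hz2 hx) ?_ ?_
    · intro i
      refine Fin.cases ?_ (fun j => ?_) i
      · simpa using hz
      · simpa using hxp j
    · rw [F_cons]
      constructor <;> linarith [hcon.1, hcon.2]

lemma badP_meas {s : ℕ} (k P : ℕ) (a τ h : ℝ) (l : Fin s → ℝ) :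
    MeasurableSet (badP k P a τ h l) := by
  have h1 := (meas_badP (s := s) k P a τ h).1
  exact h1.preimage (measurable_prodMk_left (x := l))

/-- the average over one more coefficient -/
lemma avg {s : ℕ} (k P : ℕ) (a b τ h : ℝ) (ha : 0 < a) (l : Fin s → ℝ)
    (z₁ z₂ : ℕ) (hp₁ : z₁.Prime) (hp₂ : z₂.Prime) (hz21 : z₂ ≤ z₁) (hz2 : z₁ ≤ P) (G : ℝ) (hG : 0 < G)
    (hgap : G ≤ (z₁ : ℝ) ^ k - (z₂ : ℝ) ^ k)
    (hzb : b * (z₁ : ℝ) ^ k ≤ τ / 2 * (P : ℝ) ^ k) (hb : 0 ≤ b) :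
    ∫⁻ μ in Set.Icc a b, volume (badP k P a τ h (Fin.cons μ l : Fin (s + 1) → ℝ)) ≤
      volume (badP k P a (τ / 2) h l) ^ 2 / ENNReal.ofReal G := by
  have hzle : (z₂ : ℝ) ^ k ≤ (z₁ : ℝ) ^ k := by linarith
  have hd := doubling (badP k P a (τ / 2) h l) (badP_meas k P a (τ / 2) h l) a b
    ((z₁ : ℝ) ^ k) ((z₂ : ℝ) ^ k) (by intro hh; linarith)
  have hstep : ∫⁻ μ in Set.Icc a b, volume (badP k P a τ h (Fin.cons μ l : Fin (s + 1) → ℝ)) ≤
      ∫⁻ μ in Set.Icc a b, volume {t : ℝ | t - μ * (z₁ : ℝ) ^ k ∈ badP k P a (τ / 2) h l ∧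
        t - μ * (z₂ : ℝ) ^ k ∈ badP k P a (τ / 2) h l} := by
    refine setLIntegral_mono' measurableSet_Icc fun μ hμ => ?_
    refine measure_mono fun t ht => ?_
    have hμ0 : 0 ≤ μ := ha.le.trans hμ.1
    refine ⟨badP_cons k P a b τ h μ l hμ0 hμ.2 z₁ hp₁ hz2 hzb ht, ?_⟩
    refine badP_cons k P a b τ h μ l hμ0 hμ.2 z₂ hp₂ (hz21.trans hz2) ?_ ht
    exact (mul_le_mul_of_nonneg_left hzle hb).trans hzb
  refine hstep.trans (hd.trans ?_)
  refine ENNReal.div_le_div_left ?_ _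
  apply ENNReal.ofReal_le_ofReal
  rw [abs_of_nonneg (by linarith)]
  exact hgap

/-- one step for one `P` -/
lemma step {s : ℕ} (k P : ℕ) (a b τ h : ℝ) (ha : 0 < a) (hab : a < b)
    (z₁ z₂ : ℕ) (hp₁ : z₁.Prime) (hp₂ : z₂.Prime) (hz21 : z₂ ≤ z₁) (hz2 : z₁ ≤ P) (G : ℝ) (hG : 0 < G)
    (hgap : G ≤ (z₁ : ℝ) ^ k - (z₂ : ℝ) ^ k)
    (hzb : b * (z₁ : ℝ) ^ k ≤ τ / 2 * (P : ℝ) ^ k) (V V' D : ℝ) (hV : 0 < V)
    (hV' : 0 < V') (hVV : V ^ 2 / G / V' ≤ D) :
    volume {l : Fin (s + 1) → ℝ | l ∈ cube (s + 1) a b ∧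
        ENNReal.ofReal V' < volume (badP k P a τ h l)} ≤
      ENNReal.ofReal (b - a) * volume {l : Fin s → ℝ | l ∈ cube s a b ∧
        ENNReal.ofReal V < volume (badP k P a (τ / 2) h l)} +
      ENNReal.ofReal D * ENNReal.ofReal ((b - a) ^ s) := by
  set S : Set (Fin (s + 1) → ℝ) := {l | l ∈ cube (s + 1) a b ∧
        ENNReal.ofReal V' < volume (badP k P a τ h l)} with hS
  set B : Set (Fin s → ℝ) := {l | l ∈ cube s a b ∧
        ENNReal.ofReal V < volume (badP k P a (τ / 2) h l)} with hB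
  have hSm : MeasurableSet S :=
    (cube_meas _ a b).inter (measurableSet_lt measurable_const (meas_badP k P a τ h).2)
  have hBm : MeasurableSet B :=
    (cube_meas _ a b).inter (measurableSet_lt measurable_const (meas_badP k P a (τ / 2) h).2)
  have hpres := volume_preserving_piFinSuccAbove (fun _ : Fin (s + 1) => ℝ) 0
  have hsymm := hpres.symm
  have e1 : volume S = volume ((MeasurableEquiv.piFinSuccAbove (fun _ : Fin (s + 1) => ℝ) 0).symm ⁻¹' S) :=
    (hsymm.measure_preimage hSm.nullMeasurableSet).symm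
  have hcons : ∀ p : ℝ × (Fin s → ℝ),
      (MeasurableEquiv.piFinSuccAbove (fun _ : Fin (s + 1) => ℝ) 0).symm p =
        (Fin.cons p.1 p.2 : Fin (s + 1) → ℝ) := by
    intro p
    simp [MeasurableEquiv.piFinSuccAbove]
    rfl
  have hTm : MeasurableSet ((MeasurableEquiv.piFinSuccAbove (fun _ : Fin (s + 1) => ℝ) 0).symm ⁻¹' S) :=
    (MeasurableEquiv.measurable _) hSm
  rw [e1, Measure.volume_eq_prod, Measure.prod_apply_symm hTm]
  -- slices
  have hslice : ∀ l : Fin s → ℝ,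
      volume ((fun μ : ℝ => (μ, l)) ⁻¹'
        ((MeasurableEquiv.piFinSuccAbove (fun _ : Fin (s + 1) => ℝ) 0).symm ⁻¹' S)) ≤
      B.indicator (fun _ => ENNReal.ofReal (b - a)) l +
        (cube s a b).indicator (fun _ => ENNReal.ofReal D) l := by
    intro l
    have hsub : (fun μ : ℝ => (μ, l)) ⁻¹'
        ((MeasurableEquiv.piFinSuccAbove (fun _ : Fin (s + 1) => ℝ) 0).symm ⁻¹' S) =
        {μ : ℝ | μ ∈ Set.Icc a b ∧ l ∈ cube s a b ∧
          ENNReal.ofReal V' < volume (badP k P a τ h (Fin.cons μ l : Fin (s + 1) → ℝ))} := by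
      ext μ
      simp only [Set.mem_preimage, hcons, hS, Set.mem_ofPred_eq]
      constructor
      · rintro ⟨h1, h2⟩
        refine ⟨by simpa using h1 0, fun i => by simpa using h1 i.succ, h2⟩
      · rintro ⟨h1, h2, h3⟩
        refine ⟨fun i => ?_, h3⟩
        refine Fin.cases ?_ (fun j => ?_) i
        · simpa using h1
        · simpa using h2 j
    rw [hsub]
    by_cases hl : l ∈ cube s a b
    · by_cases hlB : l ∈ B
      · rw [Set.indicator_of_mem hlB, Set.indicator_of_mem hl]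
        refine le_trans ?_ le_self_add
        rw [← Real.volume_Icc]
        exact measure_mono fun μ hμ => hμ.1
      · rw [Set.indicator_of_notMem hlB, Set.indicator_of_mem hl, zero_add]
        have hle : volume (badP k P a (τ / 2) h l) ≤ ENNReal.ofReal V := by
          by_contra hcon
          exact hlB ⟨hl, not_le.1 hcon⟩
        have hmeas : Measurable (fun μ : ℝ => volume (badP k P a τ h (Fin.cons μ l : Fin (s + 1) → ℝ))) :=
          (meas_badP k P a τ h).2.comp ((cons_meas s).comp (measurable_prodMk_right (y := l)))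
        have hmk := meas_ge_le_lintegral_div (μ := volume.restrict (Set.Icc a b)) hmeas.aemeasurable
          (ε := ENNReal.ofReal V') (by simpa using hV') ENNReal.ofReal_ne_top
        have h1 : volume {μ : ℝ | μ ∈ Set.Icc a b ∧ l ∈ cube s a b ∧
          ENNReal.ofReal V' < volume (badP k P a τ h (Fin.cons μ l : Fin (s + 1) → ℝ))} ≤
          volume.restrict (Set.Icc a b) {μ : ℝ | ENNReal.ofReal V' ≤
            volume (badP k P a τ h (Fin.cons μ l : Fin (s + 1) → ℝ))} := by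
          rw [Measure.restrict_apply (measurableSet_le measurable_const hmeas)]
          exact measure_mono fun μ hμ => ⟨hμ.2.2.le, hμ.1⟩
        refine h1.trans (hmk.trans ?_)
        have h2 := avg k P a b τ h ha l z₁ z₂ hp₁ hp₂ hz21 hz2 G hG hgap hzb (ha.trans hab).le
        calc _ ≤ (volume (badP k P a (τ / 2) h l) ^ 2 / ENNReal.ofReal G) /
              ENNReal.ofReal V' := ENNReal.div_le_div_right h2 _
          _ ≤ (ENNReal.ofReal V ^ 2 / ENNReal.ofReal G) / ENNReal.ofReal V' := by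
              refine ENNReal.div_le_div_right (ENNReal.div_le_div_right ?_ _) _
              exact pow_le_pow_left' hle 2
          _ = ENNReal.ofReal (V ^ 2 / G / V') := by
              rw [← ENNReal.ofReal_pow hV.le, ← ENNReal.ofReal_div_of_pos hG,
                ← ENNReal.ofReal_div_of_pos hV']
          _ ≤ _ := ENNReal.ofReal_le_ofReal hVV
    · have : {μ : ℝ | μ ∈ Set.Icc a b ∧ l ∈ cube s a b ∧
          ENNReal.ofReal V' < volume (badP k P a τ h (Fin.cons μ l : Fin (s + 1) → ℝ))} = ∅ := by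
        ext μ
        simp [hl]
      rw [this]
      simp
  calc _ ≤ ∫⁻ l : Fin s → ℝ, (B.indicator (fun _ => ENNReal.ofReal (b - a)) l +
        (cube s a b).indicator (fun _ => ENNReal.ofReal D) l) := lintegral_mono hslice
    _ = (∫⁻ l : Fin s → ℝ, B.indicator (fun _ => ENNReal.ofReal (b - a)) l) +
        ∫⁻ l : Fin s → ℝ, (cube s a b).indicator (fun _ => ENNReal.ofReal D) l :=
        lintegral_add_left (measurable_const.indicator hBm) _
    _ = _ := by
        rw [lintegral_indicator hBm, lintegral_indicator (cube_meas s a b), setLIntegral_const,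
          setLIntegral_const, cube_vol s a b hab.le]

theorem iterP (k : ℕ) (hk : 2 ≤ k) (a b δ : ℝ) (ha : 0 < a) (hab : a < b) (hδ : 0 < δ) (hδ1 : δ < 1)
    (h0 : ∀ τ h : ℝ, 0 < τ → τ < a / 2 → 0 < h →
      ∃ (C : ℝ) (K : ℕ), ∀ᶠ P : ℕ in atTop, ∫⁻ l in cube (k + 1) a b, volume (badP k P a τ h l) ≤
        ENNReal.ofReal (C * (Real.log P) ^ K * (P : ℝ) ^ ((k : ℝ) - δ))) (m : ℕ) :
    ∀ τ h : ℝ, 0 < τ → τ < a / 2 → 0 < h → ∃ (K : ℕ) (C : ℝ), ∀ᶠ P : ℕ in atTop,
      volume {l : Fin (k + 1 + m) → ℝ | l ∈ cube (k + 1 + m) a b ∧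
        ENNReal.ofReal ((P : ℝ) ^ k * ((Real.log P) ^ K / (P : ℝ) ^ δ) ^ (2 ^ m)) < volume (badP k P a τ h l)} ≤
        ENNReal.ofReal (C / (Real.log P) ^ 2) := by
  have hlogev : ∀ᶠ P : ℕ in atTop, 1 ≤ Real.log P := by
    have h1 : Tendsto (fun P : ℕ => Real.log (P : ℝ)) atTop atTop :=
      Real.tendsto_log_atTop.comp tendsto_natCast_atTop_atTop
    exact h1.eventually_ge_atTop 1
  have hkk : k ≠ 0 := by omega
  induction m with
  | zero =>
    intro τ h hτ hτ2 hh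
    obtain ⟨C, K, hev⟩ := h0 τ h hτ hτ2 hh
    refine ⟨K + 2, C, ?_⟩
    filter_upwards [hev, hlogev, eventually_ge_atTop 1] with P hP hlog hP1
    have hPpos : (0 : ℝ) < P := by exact_mod_cast hP1
    have hlp : 0 < Real.log P := by linarith
    set V : ℝ := (P : ℝ) ^ k * ((Real.log P) ^ (K + 2) / (P : ℝ) ^ δ) ^ (2 ^ 0) with hV
    have hVpos : 0 < V := by positivity
    have hmeas : Measurable (fun l : Fin (k + 1) → ℝ => volume (badP k P a τ h l)) :=
      (meas_badP k P a τ h).2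
    have hmk := meas_ge_le_lintegral_div (μ := volume.restrict (cube (k + 1) a b))
      hmeas.aemeasurable (ε := ENNReal.ofReal V) (by simpa using hVpos) ENNReal.ofReal_ne_top
    have h1 : volume {l : Fin (k + 1) → ℝ | l ∈ cube (k + 1) a b ∧
        ENNReal.ofReal V < volume (badP k P a τ h l)} ≤
        volume.restrict (cube (k + 1) a b) {l : Fin (k + 1) → ℝ | ENNReal.ofReal V ≤
          volume (badP k P a τ h l)} := by
      rw [Measure.restrict_apply (measurableSet_le measurable_const hmeas)]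
      exact measure_mono fun l hl => ⟨hl.2.le, hl.1⟩
    refine h1.trans (hmk.trans ?_)
    calc _ ≤ ENNReal.ofReal (C * (Real.log P) ^ K * (P : ℝ) ^ ((k : ℝ) - δ)) /
          ENNReal.ofReal V := ENNReal.div_le_div_right hP _
      _ = ENNReal.ofReal (C * (Real.log P) ^ K * (P : ℝ) ^ ((k : ℝ) - δ) / V) := by
          rw [ENNReal.ofReal_div_of_pos hVpos]
      _ = _ := by
          congr 1
          have hVeq : V = (P : ℝ) ^ ((k : ℝ) - δ) * ((Real.log P) ^ K * (Real.log P) ^ 2) := by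
            rw [hV, pow_zero, pow_one, Real.rpow_sub hPpos, Real.rpow_natCast, pow_add]
            ring
          rw [hVeq]
          have hr : 0 < (P : ℝ) ^ ((k : ℝ) - δ) := Real.rpow_pos_of_pos hPpos _
          field_simp
  | succ m ih =>
    intro τ h hτ hτ2 hh
    obtain ⟨K, C, hev⟩ := ih (τ / 2) h (by positivity) (by linarith) hh
    -- choice of η
    have hb : 0 < b := ha.trans hab
    obtain ⟨η, hη0, hη1, hηb⟩ : ∃ η : ℝ, 0 < η ∧ η ≤ 1 ∧ b * η ^ k ≤ τ / 2 := by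
      refine ⟨min 1 (τ / (2 * b)), by positivity, min_le_left _ _, ?_⟩
      have h1 : (min 1 (τ / (2 * b))) ^ k ≤ min 1 (τ / (2 * b)) :=
        pow_le_of_le_one (by positivity) (min_le_left _ _) hkk
      have h2 : min 1 (τ / (2 * b)) ≤ τ / (2 * b) := min_le_right _ _
      calc b * (min 1 (τ / (2 * b))) ^ k ≤ b * (τ / (2 * b)) :=
            mul_le_mul_of_nonneg_left (h1.trans h2) hb.le
        _ = τ / 2 := by field_simp
    set κ : ℝ := (η / 2) ^ k / 2 with hκ
    have hκ0 : 0 < κ := by positivity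
    refine ⟨K + 2, (b - a) * max C 0 + (b - a) ^ (k + 1 + m) / κ, ?_⟩
    filter_upwards [hev, hlogev, eventually_ge_atTop ⌈8 / η⌉₊] with P hP hlog hPη
    have hPη' : 8 / η ≤ P := (Nat.le_ceil _).trans (by exact_mod_cast hPη)
    have hPpos : (0 : ℝ) < P := lt_of_lt_of_le (by positivity) hPη'
    have hlp : 0 < Real.log P := by linarith
    have hx8 : 8 ≤ η * P := by
      rw [div_le_iff₀ hη0] at hPη'
      linarith
    have hn1 : ⌊η * P / 2⌋₊ ≠ 0 := by
      have : 1 ≤ ⌊η * P / 2⌋₊ := by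
        rw [Nat.one_le_floor_iff]
        linarith
      omega
    have hn2 : ⌊η * P / 8⌋₊ ≠ 0 := by
      have : 1 ≤ ⌊η * P / 8⌋₊ := by
        rw [Nat.one_le_floor_iff]
        linarith
      omega
    obtain ⟨z₁, hp₁, hz1a, hz1b⟩ := Nat.exists_prime_lt_and_le_two_mul _ hn1
    obtain ⟨z₂, hp₂, hz2a, hz2b⟩ := Nat.exists_prime_lt_and_le_two_mul _ hn2
    have hz1le : (z₁ : ℝ) ≤ η * P := by
      have h1 : (z₁ : ℝ) ≤ 2 * (⌊η * P / 2⌋₊ : ℝ) := by exact_mod_cast hz1b
      have h2 : (⌊η * P / 2⌋₊ : ℝ) ≤ η * P / 2 := Nat.floor_le (by positivity)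
      linarith
    have hz1ge : η * P / 2 ≤ z₁ := by
      have h1 := Nat.lt_floor_add_one (η * P / 2)
      have h2 : ((⌊η * P / 2⌋₊ + 1 : ℕ) : ℝ) ≤ z₁ := by exact_mod_cast hz1a
      push_cast at h2
      linarith
    have hz2le : (z₂ : ℝ) ≤ η * P / 4 := by
      have h1 : (z₂ : ℝ) ≤ 2 * (⌊η * P / 8⌋₊ : ℝ) := by exact_mod_cast hz2b
      have h2 : (⌊η * P / 8⌋₊ : ℝ) ≤ η * P / 8 := Nat.floor_le (by positivity)
      linarith
    have hz12 : 2 * (z₂ : ℝ) ≤ z₁ := by linarith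
    have hz21 : z₂ ≤ z₁ := by
      have h1 : (z₂ : ℝ) ≤ z₁ := by
        have : (0 : ℝ) ≤ z₂ := Nat.cast_nonneg _
        linarith
      exact_mod_cast h1
    have hz2 : z₁ ≤ P := by
      have : (z₁ : ℝ) ≤ P := by
        nlinarith
      exact_mod_cast this
    have hzb : b * (z₁ : ℝ) ^ k ≤ τ / 2 * (P : ℝ) ^ k := by
      calc b * (z₁ : ℝ) ^ k ≤ b * (η * P) ^ k := by gcongr
        _ = b * η ^ k * (P : ℝ) ^ k := by rw [mul_pow]; ring
        _ ≤ _ := by gcongr
    have hgap : κ * (P : ℝ) ^ k ≤ (z₁ : ℝ) ^ k - (z₂ : ℝ) ^ k := by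
      have h1 : (η / 2 * P) ^ k ≤ (z₁ : ℝ) ^ k := by
        apply pow_le_pow_left₀ (by positivity)
        linarith
      have h2 : (2 : ℝ) ^ k * (z₂ : ℝ) ^ k ≤ (z₁ : ℝ) ^ k := by
        rw [← mul_pow]
        exact pow_le_pow_left₀ (by positivity) hz12 k
      have h3 : (2 : ℝ) ≤ 2 ^ k := by
        calc (2 : ℝ) = 2 ^ 1 := by norm_num
          _ ≤ 2 ^ k := pow_le_pow_right₀ (by norm_num) (Nat.one_le_iff_ne_zero.2 hkk)
      have h4 : (0 : ℝ) ≤ (z₂ : ℝ) ^ k := by positivity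
      have h5 : 2 * (z₂ : ℝ) ^ k ≤ (z₁ : ℝ) ^ k := (mul_le_mul_of_nonneg_right h3 h4).trans h2
      have h6 : κ * (P : ℝ) ^ k = (η / 2 * P) ^ k / 2 := by
        rw [hκ, mul_pow]
        ring
      rw [h6]
      linarith
    have hG : 0 < κ * (P : ℝ) ^ k := by positivity
    set V : ℝ := (P : ℝ) ^ k * ((Real.log P) ^ K / (P : ℝ) ^ δ) ^ (2 ^ m) with hV
    set V' : ℝ := (P : ℝ) ^ k * ((Real.log P) ^ (K + 2) / (P : ℝ) ^ δ) ^ (2 ^ (m + 1)) with hV'
    have hVpos : 0 < V := by positivity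
    have hVpos' : 0 < V' := by positivity
    have hVV : V ^ 2 / (κ * (P : ℝ) ^ k) / V' ≤ 1 / κ / (Real.log P) ^ 2 := by
      have h1 : V ^ 2 = (P : ℝ) ^ k *
          ((P : ℝ) ^ k * ((Real.log P) ^ K / (P : ℝ) ^ δ) ^ (2 ^ (m + 1))) := by
        rw [hV, mul_pow, ← pow_mul, ← pow_mul, pow_succ 2 m]
        ring
      have h2 : V' = (P : ℝ) ^ k * ((Real.log P) ^ K / (P : ℝ) ^ δ) ^ (2 ^ (m + 1)) *
          ((Real.log P) ^ 2) ^ (2 ^ (m + 1)) := by
        rw [hV', mul_assoc, ← mul_pow]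
        congr 2
        rw [pow_add]
        ring
      set W : ℝ := (P : ℝ) ^ k * ((Real.log P) ^ K / (P : ℝ) ^ δ) ^ (2 ^ (m + 1)) with hW
      have hWpos : 0 < W := by positivity
      have h3 : (Real.log P) ^ 2 ≤ ((Real.log P) ^ 2) ^ (2 ^ (m + 1)) := by
        have h4 : (1 : ℝ) ≤ (Real.log P) ^ 2 := one_le_pow₀ hlog
        calc (Real.log P) ^ 2 = ((Real.log P) ^ 2) ^ 1 := (pow_one _).symm
          _ ≤ _ := pow_le_pow_right₀ h4 Nat.one_le_two_pow
      rw [h1, h2]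
      have hPk : 0 < (P : ℝ) ^ k := by positivity
      rw [div_div, div_div, div_le_div_iff₀ (by positivity) (by positivity)]
      calc (P : ℝ) ^ k * W * (κ * (Real.log P) ^ 2) = ((P : ℝ) ^ k * W * κ) * (Real.log P) ^ 2 := by ring
        _ ≤ ((P : ℝ) ^ k * W * κ) * ((Real.log P) ^ 2) ^ (2 ^ (m + 1)) :=
            mul_le_mul_of_nonneg_left h3 (by positivity)
        _ = _ := by ring
    have hD : 0 ≤ 1 / κ / (Real.log P) ^ 2 := by positivity
    have hst := step (s := k + 1 + m) k P a b τ h ha hab z₁ z₂ hp₁ hp₂ hz21 hz2 _ hG hgap hzb V V'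
      (1 / κ / (Real.log P) ^ 2) hVpos hVpos' hVV
    refine le_trans hst ?_
    have hba : 0 ≤ b - a := by linarith
    calc _ ≤ ENNReal.ofReal (b - a) * ENNReal.ofReal (max C 0 / (Real.log P) ^ 2) +
          ENNReal.ofReal (1 / κ / (Real.log P) ^ 2) * ENNReal.ofReal ((b - a) ^ (k + 1 + m)) := by
          refine add_le_add (mul_le_mul_right (hP.trans ?_) _) le_rfl
          apply ENNReal.ofReal_le_ofReal
          gcongr
          exact le_max_left _ _
      _ = ENNReal.ofReal ((b - a) * (max C 0 / (Real.log P) ^ 2) +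
          1 / κ / (Real.log P) ^ 2 * (b - a) ^ (k + 1 + m)) := by
          rw [ENNReal.ofReal_add (by positivity) (by positivity), ENNReal.ofReal_mul hba,
            ENNReal.ofReal_mul hD]
      _ = _ := by
          congr 1
          ring

end TP5

end Pool.Agent.helper616_TW
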