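import Pool.Agent.helper616_TS.Dep
import Pool.Agent.H295R3.Hoheisel
import Pool.Agent.helper616_TW.TW12
import Pool.Agent.helper616_TP.TP3
import Pool.Agent.helper616_TP.TP5
import Pool.Agent.helper616_TP.TP6

/-!
# Project TP (helper616): the problem of Waring–Goldbach with almost all real coefficients
-/

set_option autoImplicit false

open Finset MeasureTheory Filter Topology
open Pool.Agent.helper616_TS (t_Pl)

namespace Pool.Agent.helper616_TW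

theorem hoh : Hoheisel := Pool.Agent.H295R3.D.hoheisel

/-- `log₂ k + C₀ + 1` further variables suffice -/
theorem waringP : ∃ C₀ : ℕ, ∀ (k m : ℕ), 2 ≤ k → Nat.log 2 k + C₀ ≤ m →
    ∀ᵐ l : Fin (k + 1 + m) → ℝ, (∀ i, 0 < l i) → ∀ h : ℝ, 0 < h → ∀ᶠ t : ℝ in atTop,
      ∃ x : Fin (k + 1 + m) → ℕ, (∀ i, (x i).Prime) ∧ t < F k l x ∧ F k l x ≤ t + h := by
  obtain ⟨δ, hδ, hδ1, h0⟩ := TP3.bad0P t_Pl hoh
  obtain ⟨n, hn⟩ := exists_nat_gt (1 / δ)
  have hn2 : (n : ℝ) < 2 ^ n := by exact_mod_cast Nat.lt_two_pow_self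
  have h1 : 1 < δ * 2 ^ n := by
    rw [div_lt_iff₀ hδ] at hn
    nlinarith
  refine ⟨n + 1, fun k m hk hm => ?_⟩
  have hlog : (k : ℝ) < 2 ^ (Nat.log 2 k + 1) := by
    exact_mod_cast Nat.lt_pow_succ_log_self (by norm_num) k
  have hm' : (k : ℝ) < δ * 2 ^ m := by
    have h2 : (2 : ℝ) ^ (Nat.log 2 k + 1 + n) ≤ 2 ^ m := pow_le_pow_right₀ (by norm_num) (by omega)
    rw [pow_add] at h2
    have h3 : (0 : ℝ) < 2 ^ (Nat.log 2 k + 1) := by positivity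
    calc (k : ℝ) < 2 ^ (Nat.log 2 k + 1) := hlog
      _ ≤ 2 ^ (Nat.log 2 k + 1) * (δ * 2 ^ n) := by nlinarith
      _ = δ * (2 ^ (Nat.log 2 k + 1) * 2 ^ n) := by ring
      _ ≤ δ * 2 ^ m := by nlinarith
  refine TW12.allpos _ _ fun a b ha hab => ?_
  refine TP6.cubesP k hk a b δ ha hab hδ hδ1 m hm' ?_
  exact TP5.iterP k hk a b δ ha hab hδ hδ1 (fun τ h hτ hτa hh => h0 k hk a b ha hab τ h hτ hτa hh) m

end Pool.Agent.helper616_TW
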