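import Pool.Agent.helper616_TX.Defs

/-!
# Project TP (helper616): the problem of Waring–Goldbach with almost all real coefficients
-/

set_option autoImplicit false

open Finset MeasureTheory Filter Topology
open Pool.Agent.helper616_TS (e LogBdd)

namespace Pool.Agent.helper616_TW

/-- the indicator function of the primes -/
noncomputable def pr (n : ℕ) : ℝ := if n.Prime then 1 else 0

/-- the exceptional set: no representation by primes -/
def badP {s : ℕ} (k P : ℕ) (a τ h : ℝ) (l : Fin s → ℝ) : Set ℝ :=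
  {t | τ * (P : ℝ) ^ k ≤ t ∧ t ≤ a * (P : ℝ) ^ k / 2 ∧
    ∀ x ∈ box s P, (∀ i, (x i).Prime) → ¬ (t < F k l x ∧ F k l x ≤ t + h)}

/-- primes in short intervals -/
def Hoheisel : Prop := ∃ δ η : ℝ, 0 < δ ∧ δ < 1 ∧ 0 < η ∧ ∃ X₀ : ℕ, 2 ≤ X₀ ∧
  ∀ X Y : ℕ, X₀ ≤ X → (X : ℝ) ^ (1 - δ) ≤ Y → Y ≤ X →
    η * Y / Real.log X ≤ (((Ioc X (X + Y)).filter Nat.Prime).card : ℝ)

end Pool.Agent.helper616_TW
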